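import Mathlib

/-!
# A commutative universally flexible loop with the AAIP which is not a middle Bol loop

Let `G = 𝔽₂²`, `f(g,h) = g` if `g = h` and `f(g,h) = 0` otherwise, and let `B = G × G` be the
commutative loop with `(g,z)(h,w) = (g+h, z+w+f(g,h))`. Our loop `Q` of order 64 consists of the
quadruples `(g,z,t,c)` with `(g,z) ∈ B` and `t, c ∈ 𝔽₂`; it is the central extension of `B × 𝔽₂` with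
the cocycle `(t+u) (q(Z) + q(Z+f(g,h)))`, where `q(z₁,z₂) = z₁z₂` and `Z = z+w+f(g,h)`.
-/

set_option autoImplicit false

namespace Pool.Agent.Results.MP_9ff1c8_al.OrderSixtyFour

/-- A loop, with its divisions `ldiv a b = a \ b` and `rdiv b a = b / a`. -/
class Loop (Q : Type) extends Mul Q, One Q where
  /-- left division `a \ b` -/
  ldiv : Q → Q → Q
  /-- right division `b / a` -/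
  rdiv : Q → Q → Q
  one_mul' : ∀ x : Q, 1 * x = x
  mul_one' : ∀ x : Q, x * 1 = x
  mul_ldiv : ∀ a b : Q, a * ldiv a b = b
  ldiv_mul : ∀ a b : Q, ldiv a (a * b) = b
  rdiv_mul : ∀ a b : Q, rdiv b a * a = b
  mul_rdiv : ∀ a b : Q, rdiv (b * a) a = b

open Loop

/-- The principal isotope `x ∘ y = (x / a)(b \ y)`. -/
def isotope {Q : Type} [Loop Q] (a b : Q) (x y : Q) : Q := rdiv x a * ldiv b y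

/-- Every principal isotope is flexible: `x ∘ (y ∘ x) = (x ∘ y) ∘ x`. -/
def UniversallyFlexible (Q : Type) [Loop Q] : Prop :=
  ∀ a b x y : Q, isotope a b x (isotope a b y x) = isotope a b (isotope a b x y) x

/-- Every element has a two-sided inverse, and `(xy)⁻¹ = y⁻¹ x⁻¹`. -/
def HasAAIP (Q : Type) [Loop Q] : Prop :=
  ∃ inv : Q → Q, (∀ x : Q, x * inv x = 1 ∧ inv x * x = 1) ∧ ∀ x y : Q, inv (x * y) = inv y * inv x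

/-- The middle Bol identity. -/
def IsMiddleBol (Q : Type) [Loop Q] : Prop :=
  ∀ x y z : Q, x * ldiv (y * z) x = rdiv x z * ldiv y x

/-! ### The loop -/

/-- The elements `(g, z, t, c)` with `g = (g₁,g₂)`, `z = (z₁,z₂)`. -/
@[ext] structure Q where
  g₁ : ZMod 2
  g₂ : ZMod 2
  z₁ : ZMod 2
  z₂ : ZMod 2
  t : ZMod 2
  c : ZMod 2
deriving DecidableEq

/-- The indicator of `g = h`. -/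
def dl (g₁ g₂ h₁ h₂ : ZMod 2) : ZMod 2 := (1 + g₁ + h₁) * (1 + g₂ + h₂)

/-- First coordinate of `f(g,h)`. -/
def f₁ (g₁ g₂ h₁ h₂ : ZMod 2) : ZMod 2 := dl g₁ g₂ h₁ h₂ * g₁

/-- Second coordinate of `f(g,h)`. -/
def f₂ (g₁ g₂ h₁ h₂ : ZMod 2) : ZMod 2 := dl g₁ g₂ h₁ h₂ * g₂

/-- `q(Z) + q(Z + f)` for `q(Z) = Z₁Z₂`. -/
def ph (Z₁ Z₂ a b : ZMod 2) : ZMod 2 := a * Z₂ + b * Z₁ + a * b

/-- The product. -/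
def mulQ (x y : Q) : Q :=
  ⟨x.g₁ + y.g₁, x.g₂ + y.g₂, x.z₁ + y.z₁ + f₁ x.g₁ x.g₂ y.g₁ y.g₂,
    x.z₂ + y.z₂ + f₂ x.g₁ x.g₂ y.g₁ y.g₂, x.t + y.t,
    x.c + y.c + (x.t + y.t) * ph (x.z₁ + y.z₁ + f₁ x.g₁ x.g₂ y.g₁ y.g₂)
      (x.z₂ + y.z₂ + f₂ x.g₁ x.g₂ y.g₁ y.g₂) (f₁ x.g₁ x.g₂ y.g₁ y.g₂) (f₂ x.g₁ x.g₂ y.g₁ y.g₂)⟩

/-- The division `x \ p = p / x`. -/
def divQ (x p : Q) : Q :=
  ⟨x.g₁ + p.g₁, x.g₂ + p.g₂, x.z₁ + p.z₁ + f₁ x.g₁ x.g₂ (x.g₁ + p.g₁) (x.g₂ + p.g₂),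
    x.z₂ + p.z₂ + f₂ x.g₁ x.g₂ (x.g₁ + p.g₁) (x.g₂ + p.g₂), x.t + p.t,
    x.c + p.c + p.t * ph p.z₁ p.z₂ (f₁ x.g₁ x.g₂ (x.g₁ + p.g₁) (x.g₂ + p.g₂))
      (f₂ x.g₁ x.g₂ (x.g₁ + p.g₁) (x.g₂ + p.g₂))⟩

theorem mulQ_comm (x y : Q) : mulQ x y = mulQ y x := by
  have h1 : ∀ a b c d : ZMod 2, f₁ a b c d = f₁ c d a b := by decide
  have h2 : ∀ a b c d : ZMod 2, f₂ a b c d = f₂ c d a b := by decide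
  simp only [mulQ, h1 x.g₁, h2 x.g₁, add_comm x.g₁, add_comm x.g₂, add_comm x.z₁, add_comm x.z₂,
    add_comm x.t, add_comm x.c]

theorem mul_divQ (x p : Q) : mulQ x (divQ x p) = p := by
  have h : ∀ a b : ZMod 2, a + (a + b) = b := by decide
  have h' : ∀ a b c : ZMod 2, a + (a + b + c) + c = b := by decide
  have h'' : ∀ a b c : ZMod 2, a + (a + b + c) + c = b := by decide
  ext <;> simp only [mulQ, divQ, h, h']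

theorem div_mulQ (x y : Q) : divQ x (mulQ x y) = y := by
  have h : ∀ a b : ZMod 2, a + (a + b) = b := by decide
  have h' : ∀ a b c : ZMod 2, a + (a + b + c) + c = b := by decide
  ext <;> simp only [mulQ, divQ, h, h']

instance : Loop Q where
  mul := mulQ
  one := ⟨0, 0, 0, 0, 0, 0⟩
  ldiv := divQ
  rdiv p x := divQ x p
  one_mul' x := by
    have h1 : ∀ a b : ZMod 2, f₁ 0 0 a b = 0 := by decide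
    have h2 : ∀ a b : ZMod 2, f₂ 0 0 a b = 0 := by decide
    show mulQ ⟨0, 0, 0, 0, 0, 0⟩ x = x
    ext <;> simp [mulQ, h1, h2, ph]
  mul_one' x := by
    have h1 : ∀ a b : ZMod 2, f₁ 0 0 a b = 0 := by decide
    have h2 : ∀ a b : ZMod 2, f₂ 0 0 a b = 0 := by decide
    show mulQ x ⟨0, 0, 0, 0, 0, 0⟩ = x
    rw [mulQ_comm]
    ext <;> simp [mulQ, h1, h2, ph]
  mul_ldiv x p := mul_divQ x p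
  ldiv_mul x y := div_mulQ x y
  rdiv_mul x p := (mulQ_comm _ _).trans (mul_divQ x p)
  mul_rdiv x y := by
    show divQ x (mulQ y x) = y
    rw [mulQ_comm]
    exact div_mulQ x y

set_option maxRecDepth 100000 in
/-- Relations between the values of `f` occurring in the flexible law of an isotope. -/
theorem rels : ∀ a₁ a₂ b₁ b₂ x₁ x₂ y₁ y₂ : ZMod 2,
    let wa₁ := f₁ a₁ a₂ (a₁ + y₁) (a₂ + y₂)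
    let wa₂ := f₂ a₁ a₂ (a₁ + y₁) (a₂ + y₂)
    let bs₁ := f₁ b₁ b₂ (b₁ + y₁) (b₂ + y₂)
    let bs₂ := f₂ b₁ b₂ (b₁ + y₁) (b₂ + y₂)
    let ua₁ := f₁ a₁ a₂ (a₁ + x₁) (a₂ + x₂)
    let ua₂ := f₂ a₁ a₂ (a₁ + x₁) (a₂ + x₂)
    let bv₁ := f₁ b₁ b₂ (b₁ + x₁) (b₂ + x₂)
    let bv₂ := f₂ b₁ b₂ (b₁ + x₁) (b₂ + x₂)
    let wv₁ := f₁ (a₁ + y₁) (a₂ + y₂) (b₁ + x₁) (b₂ + x₂)
    let wv₂ := f₂ (a₁ + y₁) (a₂ + y₂) (b₁ + x₁) (b₂ + x₂)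
    let us₁ := f₁ (a₁ + x₁) (a₂ + x₂) (b₁ + y₁) (b₂ + y₂)
    let us₂ := f₂ (a₁ + x₁) (a₂ + x₂) (b₁ + y₁) (b₂ + y₂)
    let br₁ := f₁ b₁ b₂ (b₁ + (a₁ + y₁ + (b₁ + x₁))) (b₂ + (a₂ + y₂ + (b₂ + x₂)))
    let br₂ := f₂ b₁ b₂ (b₁ + (a₁ + y₁ + (b₁ + x₁))) (b₂ + (a₂ + y₂ + (b₂ + x₂)))
    let ra₁ := f₁ a₁ a₂ (a₁ + (a₁ + x₁ + (b₁ + y₁))) (a₂ + (a₂ + x₂ + (b₂ + y₂)))
    let ra₂ := f₂ a₁ a₂ (a₁ + (a₁ + x₁ + (b₁ + y₁))) (a₂ + (a₂ + x₂ + (b₂ + y₂)))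
    let ur₁ := f₁ (a₁ + x₁) (a₂ + x₂) (b₁ + (a₁ + y₁ + (b₁ + x₁))) (b₂ + (a₂ + y₂ + (b₂ + x₂)))
    let ur₂ := f₂ (a₁ + x₁) (a₂ + x₂) (b₁ + (a₁ + y₁ + (b₁ + x₁))) (b₂ + (a₂ + y₂ + (b₂ + x₂)))
    let rv₁ := f₁ (a₁ + (a₁ + x₁ + (b₁ + y₁))) (a₂ + (a₂ + x₂ + (b₂ + y₂))) (b₁ + x₁) (b₂ + x₂)
    let rv₂ := f₂ (a₁ + (a₁ + x₁ + (b₁ + y₁))) (a₂ + (a₂ + x₂ + (b₂ + y₂))) (b₁ + x₁) (b₂ + x₂)
    wa₁ + bs₁ + ur₁ + rv₁ = 0 ∧ wa₂ + bs₂ + ur₂ + rv₂ = 0 ∧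
    wv₁ + br₁ + us₁ + ra₁ = 0 ∧ wv₂ + br₂ + us₂ + ra₂ = 0 ∧
    wa₁ * wa₂ + bs₁ * bs₂ + ur₁ * ur₂ + rv₁ * rv₂ +
      ((ur₁ + rv₁) * (ua₂ + wa₂ + bv₂ + wv₂ + br₂ + ur₂) +
        (ur₂ + rv₂) * (ua₁ + wa₁ + bv₁ + wv₁ + br₁ + ur₁)) = 0 ∧
    wv₁ * wv₂ + br₁ * br₂ + us₁ * us₂ + ra₁ * ra₂ +
      ((us₁ + ra₁) * (wa₂ + bv₂ + wv₂ + ua₂ + bs₂ + us₂) +
        (us₂ + ra₂) * (wa₁ + bv₁ + wv₁ + ua₁ + bs₁ + us₁)) = 0 := by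
  decide

theorem ph_four {y₁ y₂ l₁ l₂ w₁ w₂ b₁ b₂ u₁ u₂ r₁ r₂ : ZMod 2}
    (h1 : w₁ + b₁ + u₁ + r₁ = 0) (h2 : w₂ + b₂ + u₂ + r₂ = 0)
    (h : w₁ * w₂ + b₁ * b₂ + u₁ * u₂ + r₁ * r₂ + ((u₁ + r₁) * l₂ + (u₂ + r₂) * l₁) = 0) :
    ph y₁ y₂ w₁ w₂ + ph y₁ y₂ b₁ b₂ + ph (y₁ + l₁) (y₂ + l₂) u₁ u₂ +
      ph (y₁ + l₁) (y₂ + l₂) r₁ r₂ = 0 := by
  simp only [ph]
  linear_combination h + h1 * y₂ + h2 * y₁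

theorem uf (a b x y : Q) :
    mulQ (divQ a x) (divQ b (mulQ (divQ a y) (divQ b x))) =
      mulQ (divQ a (mulQ (divQ a x) (divQ b y))) (divQ b x) := by
  obtain ⟨h1, h2, h3, h4, h5, h6⟩ := rels a.g₁ a.g₂ b.g₁ b.g₂ x.g₁ x.g₂ y.g₁ y.g₂
  simp only [mulQ, divQ]
  generalize f₁ a.g₁ a.g₂ (a.g₁ + y.g₁) (a.g₂ + y.g₂) = wa₁ at *
  generalize f₂ a.g₁ a.g₂ (a.g₁ + y.g₁) (a.g₂ + y.g₂) = wa₂ at *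
  generalize f₁ b.g₁ b.g₂ (b.g₁ + y.g₁) (b.g₂ + y.g₂) = bs₁ at *
  generalize f₂ b.g₁ b.g₂ (b.g₁ + y.g₁) (b.g₂ + y.g₂) = bs₂ at *
  generalize f₁ a.g₁ a.g₂ (a.g₁ + x.g₁) (a.g₂ + x.g₂) = ua₁ at *
  generalize f₂ a.g₁ a.g₂ (a.g₁ + x.g₁) (a.g₂ + x.g₂) = ua₂ at *
  generalize f₁ b.g₁ b.g₂ (b.g₁ + x.g₁) (b.g₂ + x.g₂) = bv₁ at *
  generalize f₂ b.g₁ b.g₂ (b.g₁ + x.g₁) (b.g₂ + x.g₂) = bv₂ at *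
  generalize f₁ (a.g₁ + y.g₁) (a.g₂ + y.g₂) (b.g₁ + x.g₁) (b.g₂ + x.g₂) = wv₁ at *
  generalize f₂ (a.g₁ + y.g₁) (a.g₂ + y.g₂) (b.g₁ + x.g₁) (b.g₂ + x.g₂) = wv₂ at *
  generalize f₁ (a.g₁ + x.g₁) (a.g₂ + x.g₂) (b.g₁ + y.g₁) (b.g₂ + y.g₂) = us₁ at *
  generalize f₂ (a.g₁ + x.g₁) (a.g₂ + x.g₂) (b.g₁ + y.g₁) (b.g₂ + y.g₂) = us₂ at *
  generalize f₁ b.g₁ b.g₂ (b.g₁ + (a.g₁ + y.g₁ + (b.g₁ + x.g₁)))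
    (b.g₂ + (a.g₂ + y.g₂ + (b.g₂ + x.g₂))) = br₁ at *
  generalize f₂ b.g₁ b.g₂ (b.g₁ + (a.g₁ + y.g₁ + (b.g₁ + x.g₁)))
    (b.g₂ + (a.g₂ + y.g₂ + (b.g₂ + x.g₂))) = br₂ at *
  generalize f₁ a.g₁ a.g₂ (a.g₁ + (a.g₁ + x.g₁ + (b.g₁ + y.g₁)))
    (a.g₂ + (a.g₂ + x.g₂ + (b.g₂ + y.g₂))) = ra₁ at *
  generalize f₂ a.g₁ a.g₂ (a.g₁ + (a.g₁ + x.g₁ + (b.g₁ + y.g₁)))
    (a.g₂ + (a.g₂ + x.g₂ + (b.g₂ + y.g₂))) = ra₂ at *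
  generalize f₁ (a.g₁ + x.g₁) (a.g₂ + x.g₂) (b.g₁ + (a.g₁ + y.g₁ + (b.g₁ + x.g₁)))
    (b.g₂ + (a.g₂ + y.g₂ + (b.g₂ + x.g₂))) = ur₁ at *
  generalize f₂ (a.g₁ + x.g₁) (a.g₂ + x.g₂) (b.g₁ + (a.g₁ + y.g₁ + (b.g₁ + x.g₁)))
    (b.g₂ + (a.g₂ + y.g₂ + (b.g₂ + x.g₂))) = ur₂ at *
  generalize f₁ (a.g₁ + (a.g₁ + x.g₁ + (b.g₁ + y.g₁))) (a.g₂ + (a.g₂ + x.g₂ + (b.g₂ + y.g₂)))
    (b.g₁ + x.g₁) (b.g₂ + x.g₂) = rv₁ at *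
  generalize f₂ (a.g₁ + (a.g₁ + x.g₁ + (b.g₁ + y.g₁))) (a.g₂ + (a.g₂ + x.g₂ + (b.g₂ + y.g₂)))
    (b.g₁ + x.g₁) (b.g₂ + x.g₂) = rv₂ at *
  rcases a with ⟨a1, a2, a3, a4, a5, a6⟩
  rcases b with ⟨b1, b2, b3, b4, b5, b6⟩
  rcases x with ⟨x1, x2, x3, x4, x5, x6⟩
  rcases y with ⟨y1, y2, y3, y4, y5, y6⟩
  simp only [Q.mk.injEq]
  -- the `z`-coordinates of the products which occur
  have k1 : a3 + x3 + ua₁ + (b3 + (a3 + y3 + wa₁ + (b3 + x3 + bv₁) + wv₁) + br₁) + ur₁ =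
      y3 + (ua₁ + wa₁ + bv₁ + wv₁ + br₁ + ur₁) := by grind
  have k2 : a4 + x4 + ua₂ + (b4 + (a4 + y4 + wa₂ + (b4 + x4 + bv₂) + wv₂) + br₂) + ur₂ =
      y4 + (ua₂ + wa₂ + bv₂ + wv₂ + br₂ + ur₂) := by grind
  have k3 : a3 + (a3 + x3 + ua₁ + (b3 + y3 + bs₁) + us₁) + ra₁ + (b3 + x3 + bv₁) + rv₁ =
      y3 + (ua₁ + wa₁ + bv₁ + wv₁ + br₁ + ur₁) := by grind
  have k4 : a4 + (a4 + x4 + ua₂ + (b4 + y4 + bs₂) + us₂) + ra₂ + (b4 + x4 + bv₂) + rv₂ =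
      y4 + (ua₂ + wa₂ + bv₂ + wv₂ + br₂ + ur₂) := by grind
  have k5 : a3 + x3 + ua₁ + (b3 + y3 + bs₁) + us₁ =
      a3 + y3 + wa₁ + (b3 + x3 + bv₁) + wv₁ + (wa₁ + bv₁ + wv₁ + ua₁ + bs₁ + us₁) := by grind
  have k6 : a4 + x4 + ua₂ + (b4 + y4 + bs₂) + us₂ =
      a4 + y4 + wa₂ + (b4 + x4 + bv₂) + wv₂ + (wa₂ + bv₂ + wv₂ + ua₂ + bs₂ + us₂) := by grind
  have e1 := ph_four (y₁ := y3) (y₂ := y4) h1 h2 h5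
  have e2 := ph_four (y₁ := a3 + y3 + wa₁ + (b3 + x3 + bv₁) + wv₁)
    (y₂ := a4 + y4 + wa₂ + (b4 + x4 + bv₂) + wv₂) h3 h4 h6
  refine ⟨by grind, by grind, k1.trans k3.symm, k2.trans k4.symm, by grind, ?_⟩
  rw [k1, k2, k3, k4, k5, k6]
  grind

theorem card_Q : Nat.card Q = 64 := by
  let e : Q ≃ ZMod 2 × ZMod 2 × ZMod 2 × ZMod 2 × ZMod 2 × ZMod 2 :=
    { toFun := fun x => (x.g₁, x.g₂, x.z₁, x.z₂, x.t, x.c)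
      invFun := fun x => ⟨x.1, x.2.1, x.2.2.1, x.2.2.2.1, x.2.2.2.2.1, x.2.2.2.2.2⟩
      left_inv := fun _ => rfl
      right_inv := fun _ => rfl }
  rw [Nat.card_congr e]
  simp

theorem aaip : HasAAIP Q := by
  refine ⟨fun x => divQ x 1, fun x => ⟨mul_divQ x 1, (mulQ_comm _ _).trans (mul_divQ x 1)⟩, ?_⟩
  intro x y
  have h1 : ∀ a b c d : ZMod 2, f₁ (a + c) (b + d) (a + c + 0) (b + d + 0) + f₁ a b c d =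
      f₁ c d (c + 0) (d + 0) + f₁ a b (a + 0) (b + 0) +
        f₁ (c + 0) (d + 0) (a + 0) (b + 0) := by decide
  have h2 : ∀ a b c d : ZMod 2, f₂ (a + c) (b + d) (a + c + 0) (b + d + 0) + f₂ a b c d =
      f₂ c d (c + 0) (d + 0) + f₂ a b (a + 0) (b + 0) +
        f₂ (c + 0) (d + 0) (a + 0) (b + 0) := by decide
  have h3 : ∀ a b c d : ZMod 2, f₁ (c + 0) (d + 0) (a + 0) (b + 0) = f₁ a b c d := by decide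
  have h4 : ∀ a b c d : ZMod 2, f₂ (c + 0) (d + 0) (a + 0) (b + 0) = f₂ a b c d := by decide
  have h5 : ∀ a b c d : ZMod 2, f₁ a b c d * (f₂ a b (a + 0) (b + 0) + f₂ c d (c + 0) (d + 0)) +
      f₂ a b c d * (f₁ a b (a + 0) (b + 0) + f₁ c d (c + 0) (d + 0)) = 0 := by decide
  have e1 := h1 x.g₁ x.g₂ y.g₁ y.g₂
  have e2 := h2 x.g₁ x.g₂ y.g₁ y.g₂
  have e3 := h3 x.g₁ x.g₂ y.g₁ y.g₂
  have e4 := h4 x.g₁ x.g₂ y.g₁ y.g₂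
  have e5 := h5 x.g₁ x.g₂ y.g₁ y.g₂
  show divQ (mulQ x y) ⟨0, 0, 0, 0, 0, 0⟩ =
    mulQ (divQ y ⟨0, 0, 0, 0, 0, 0⟩) (divQ x ⟨0, 0, 0, 0, 0, 0⟩)
  rw [e3] at e1
  rw [e4] at e2
  simp only [mulQ, divQ, e3, e4]
  generalize f₁ (x.g₁ + y.g₁) (x.g₂ + y.g₂) (x.g₁ + y.g₁ + 0) (x.g₂ + y.g₂ + 0) = p₁ at *
  generalize f₂ (x.g₁ + y.g₁) (x.g₂ + y.g₂) (x.g₁ + y.g₁ + 0) (x.g₂ + y.g₂ + 0) = p₂ at *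
  generalize f₁ x.g₁ x.g₂ (x.g₁ + 0) (x.g₂ + 0) = q₁ at *
  generalize f₂ x.g₁ x.g₂ (x.g₁ + 0) (x.g₂ + 0) = q₂ at *
  generalize f₁ y.g₁ y.g₂ (y.g₁ + 0) (y.g₂ + 0) = r₁ at *
  generalize f₂ y.g₁ y.g₂ (y.g₁ + 0) (y.g₂ + 0) = r₂ at *
  generalize f₁ x.g₁ x.g₂ y.g₁ y.g₂ = s₁ at *
  generalize f₂ x.g₁ x.g₂ y.g₁ y.g₂ = s₂ at *
  simp only [Q.mk.injEq, ph]
  refine ⟨by grind, by grind, by grind, by grind, by grind, by grind⟩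

/-- **A commutative universally flexible loop with the antiautomorphic inverse property which is not
a middle Bol loop.** There is such a loop of order 64. -/
theorem result : ∃ (Q : Type) (_ : Loop Q), Nat.card Q = 64 ∧ (∀ x y : Q, x * y = y * x) ∧
    UniversallyFlexible Q ∧ HasAAIP Q ∧ ¬ IsMiddleBol Q := by
  refine ⟨Q, inferInstance, card_Q, mulQ_comm, uf, aaip, fun h => ?_⟩
  have h1 := h ⟨0, 0, 0, 0, 1, 0⟩ ⟨0, 1, 0, 0, 0, 0⟩ ⟨1, 0, 0, 0, 0, 0⟩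
  have h2 : mulQ ⟨0, 0, 0, 0, 1, 0⟩ (divQ (mulQ ⟨0, 1, 0, 0, 0, 0⟩ ⟨1, 0, 0, 0, 0, 0⟩)
      ⟨0, 0, 0, 0, 1, 0⟩) ≠
      mulQ (divQ ⟨1, 0, 0, 0, 0, 0⟩ ⟨0, 0, 0, 0, 1, 0⟩)
        (divQ ⟨0, 1, 0, 0, 0, 0⟩ ⟨0, 0, 0, 0, 1, 0⟩) := by decide
  exact h2 h1

end Pool.Agent.Results.MP_9ff1c8_al.OrderSixtyFour
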